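import Pool.Agent.Y575.LD.Defs

/-! Job LD-LUS for helper575: if `𝔟 > ℵ₁` there are no Lusin sets. -/

set_option autoImplicit false

open Cardinal Set Topology

namespace Pool.Agent.Y420.LD

open Pool.Agent.Y575.LD

theorem uncW1 : ¬ Countable W1 := by
  intro h
  have h1 : #W1 ≤ ℵ₀ := Cardinal.mk_le_aleph0_iff.2 h
  have h2 : #W1 = ℵ₁ := Cardinal.mk_ord_toType _
  rw [h2] at h1
  exact absurd h1 (not_le.2 Cardinal.aleph0_lt_aleph_one)

theorem lus : S_LUS := by
  intro hb hL
  obtain ⟨L, hL1, hL2⟩ := hL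
  have hQ : (range ((↑) : ℚ → ℝ)).Countable := countable_range _
  have hL' : ¬ (L \ range ((↑) : ℚ → ℝ)).Countable := by
    intro h
    apply hL1
    apply (h.union hQ).mono
    intro x hx
    by_cases hxq : x ∈ range ((↑) : ℚ → ℝ)
    · exact Or.inr hxq
    · exact Or.inl ⟨hx, hxq⟩
  have hcard : #W1 ≤ #(L \ range ((↑) : ℚ → ℝ) : Set ℝ) := by
    have h2 : #W1 = ℵ₁ := Cardinal.mk_ord_toType _
    rw [h2, ← Cardinal.succ_aleph0, Order.succ_le_iff]
    by_contra h
    rw [not_lt, Cardinal.mk_le_aleph0_iff] at h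
    exact hL' h
  obtain ⟨x⟩ := hcard
  obtain ⟨en, hen⟩ := exists_surjective_nat ℚ
  set q : ℕ → ℝ := fun i => (en i : ℝ) with hq
  have hqs : range q = range ((↑) : ℚ → ℝ) := by
    ext y
    constructor
    · rintro ⟨i, rfl⟩
      exact ⟨_, rfl⟩
    · rintro ⟨r, rfl⟩
      obtain ⟨i, rfl⟩ := hen r
      exact ⟨i, rfl⟩
  have hxq : ∀ a i, (x a : ℝ) ≠ q i := by
    intro a i h
    exact (x a).2.2 ⟨en i, h.symm⟩
  obtain ⟨g, hg⟩ := hb (fun a i => ⌈1 / |(x a : ℝ) - q i|⌉₊)
  set M : ℕ → Set ℝ := fun N => ⋂ i, ⋂ (_ : N ≤ i), {y : ℝ | 1 / ((g i : ℝ) + 1) ≤ |y - q i|} with hM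
  have hclosed : ∀ N, IsClosed (M N) := by
    intro N
    apply isClosed_iInter
    intro i
    apply isClosed_iInter
    intro _
    exact isClosed_le continuous_const ((continuous_id.sub continuous_const).abs)
  have hmea : IsMeagre (⋃ N, M N) := by
    apply isMeagre_iUnion
    intro N
    apply IsNowhereDense.isMeagre
    rw [(hclosed N).isNowhereDense_iff]
    by_contra hne
    have hne' : (interior (M N)).Nonempty := nonempty_iff_ne_empty.2 hne
    have hd : Dense (range q \ (q '' {i | i < N})) := by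
      apply Dense.sdiff_finite
      · rw [hqs]
        exact Rat.denseRange_cast
      · exact (Set.finite_lt_nat N).image q
    obtain ⟨y, hy1, hy2⟩ := hd.inter_open_nonempty _ isOpen_interior hne'
    obtain ⟨⟨i, rfl⟩, hi⟩ := hy2
    have hNi : N ≤ i := by
      by_contra h
      exact hi ⟨i, not_le.1 h, rfl⟩
    have h3 := interior_subset hy1
    simp only [hM, mem_iInter, mem_ofPred_eq] at h3
    have h4 := h3 i hNi
    rw [sub_self, abs_zero] at h4
    have h5 : (0 : ℝ) < 1 / ((g i : ℝ) + 1) := by positivity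
    linarith
  have hc := hL2 _ hmea
  apply uncW1
  have hsub : range (fun a => (x a : ℝ)) ⊆ L ∩ ⋃ N, M N := by
    rintro _ ⟨a, rfl⟩
    refine ⟨(x a).2.1, ?_⟩
    obtain ⟨N, hN⟩ := hg a
    rw [mem_iUnion]
    refine ⟨N, ?_⟩
    simp only [hM, mem_iInter, mem_ofPred_eq]
    intro i hi
    have h1 := hN i hi
    have h2 : 0 < |(x a : ℝ) - q i| := abs_pos.2 (sub_ne_zero.2 (hxq a i))
    have h3 : 1 / |(x a : ℝ) - q i| ≤ (g i : ℝ) :=
      (Nat.le_ceil _).trans (by exact_mod_cast h1)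
    rw [div_le_iff₀ (by positivity)]
    rw [div_le_iff₀ h2] at h3
    nlinarith
  have hc2 : (range (fun a => (x a : ℝ))).Countable := hc.mono hsub
  have hinj : Function.Injective (fun a => (x a : ℝ)) := fun a b h => x.injective (Subtype.ext h)
  rw [Set.countable_coe_iff.symm] at hc2
  exact (Equiv.ofInjective _ hinj).countable_iff.2 hc2

end Pool.Agent.Y420.LD
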